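import Pool.Agent.Q115.DG.Down

/-!
# The Gyárfás–Sumner conjecture is a statement on dense graphs
-/

set_option autoImplicit false

namespace Pool.Agent.Q115.DG

open Finset

theorem acyclic_map {V V' : Type} [Nonempty V] (G : SimpleGraph V) (f : V ↪ V')
    (hG : G.IsAcyclic) : (G.map f).IsAcyclic := by
  classical
  rw [SimpleGraph.isAcyclic_iff_forall_adj_isBridge]
  intro x y hxy
  obtain ⟨a, b, hab, rfl, rfl⟩ := (SimpleGraph.map_adj _ _ _ _).1 hxy
  rw [SimpleGraph.isBridge_iff]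
  intro hreach
  have hbr := (SimpleGraph.isAcyclic_iff_forall_adj_isBridge.1 hG) hab
  rw [SimpleGraph.isBridge_iff] at hbr
  apply hbr
  have hinv : ∀ a, Function.invFun f (f a) = a := Function.leftInverse_invFun f.injective
  let φ : (G.map f).deleteEdges {s(f a, f b)} →g G.deleteEdges {s(a, b)} :=
    { toFun := Function.invFun f
      map_rel' := by
        intro x y h
        rw [SimpleGraph.deleteEdges_adj] at h ⊢
        obtain ⟨h1, h2⟩ := h
        obtain ⟨a', b', hab', rfl, rfl⟩ := (SimpleGraph.map_adj _ _ _ _).1 h1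
        rw [hinv, hinv]
        refine ⟨hab', ?_⟩
        intro h3
        apply h2
        rw [Set.mem_singleton_iff] at h3 ⊢
        rw [Sym2.eq_iff] at h3
        rcases h3 with ⟨rfl, rfl⟩ | ⟨rfl, rfl⟩
        · rfl
        · exact Sym2.eq_swap }
  have h := hreach.map φ
  have e1 : φ (f a) = a := hinv a
  have e2 : φ (f b) = b := hinv b
  rw [e1, e2] at h
  exact h

/-- Every nonempty finite forest is an induced subgraph of a finite tree with connected
complement. -/
theorem big_tree {m : ℕ} (hm : 1 ≤ m) (F : SimpleGraph (Fin m)) (hF : F.IsAcyclic) :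
    ∃ (M : ℕ) (T : SimpleGraph (Fin M)), 2 ≤ M ∧ T.Connected ∧ Tᶜ.Connected ∧ T.IsAcyclic ∧
      Nonempty (F ↪g T) := by
  classical
  obtain ⟨T1, hT1, ⟨e1⟩⟩ := Pool.Agent.H367R3.forest_in_tree F hF
  obtain ⟨T2, hT2, ⟨e2⟩⟩ := Pool.Agent.H367R3.forest_in_tree
    (T1.map (Fin.castSuccEmb : Fin (m + 1) ↪ Fin (m + 2))) (acyclic_map T1 _ hT1.isAcyclic)
  -- an edge of `T1`
  obtain ⟨a, b, hab⟩ : ∃ a b, T1.Adj a b := by
    have h0 : (⟨1, by omega⟩ : Fin (m + 1)) ∉ ({⟨0, by omega⟩} : Set (Fin (m + 1))) := by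
      rw [Set.mem_singleton_iff, Fin.mk.injEq]
      norm_num
    obtain ⟨x, _, y, _, hxy⟩ := cross hT1.connected {⟨0, by omega⟩} (a := ⟨0, by omega⟩) rfl h0
    exact ⟨x, y, hxy⟩
  set v : Fin (m + 2) := Fin.last (m + 1) with hv
  have hiso : ∀ x, ¬ (T1.map (Fin.castSuccEmb : Fin (m + 1) ↪ Fin (m + 2))).Adj v x := by
    intro x h
    obtain ⟨a', b', _, h1, _⟩ := (SimpleGraph.map_adj _ _ _ _).1 h
    exact (Fin.castSucc_lt_last a').ne h1
  set A := e2 (Fin.castSuccEmb a) with hA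
  set B := e2 (Fin.castSuccEmb b) with hB
  set w := e2 v with hw
  have hAB : T2.Adj A B := e2.map_rel_iff'.2 ((SimpleGraph.map_adj _ _ _ _).2 ⟨a, b, hab, rfl, rfl⟩)
  have hwA : ¬ T2.Adj w A := fun h => hiso _ (e2.map_rel_iff'.1 h)
  have hwB : ¬ T2.Adj w B := fun h => hiso _ (e2.map_rel_iff'.1 h)
  have hwA' : w ≠ A := fun h => (Fin.castSucc_lt_last a).ne' (e2.injective h)
  have hwB' : w ≠ B := fun h => (Fin.castSucc_lt_last b).ne' (e2.injective h)
  have htri : ∀ x, T2.Adj x A → ¬ T2.Adj x B := by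
    intro x h1 h2
    obtain ⟨c⟩ := hT2.isAcyclic.colorable_two
    have c1 := c.valid h1
    have c2 := c.valid h2
    have c3 := c.valid hAB
    have h4 : ∀ p q r : Fin 2, p ≠ q → p ≠ r → q ≠ r → False := by decide
    exact h4 _ _ _ c1 c2 c3
  have hcA : T2ᶜ.Adj A w := by
    rw [SimpleGraph.compl_adj]
    exact ⟨hwA'.symm, fun h => hwA h.symm⟩
  have hcB : T2ᶜ.Adj B w := by
    rw [SimpleGraph.compl_adj]
    exact ⟨hwB'.symm, fun h => hwB h.symm⟩
  refine ⟨m + 2 + 1, T2, by omega, hT2.connected, ?_, hT2.isAcyclic, ?_⟩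
  · have hreach : ∀ x, T2ᶜ.Reachable x w := by
      intro x
      by_cases hxw : x = w
      · rw [hxw]
      by_cases hxA : x = A
      · rw [hxA]; exact hcA.reachable
      by_cases hxB : x = B
      · rw [hxB]; exact hcB.reachable
      by_cases h : T2.Adj x A
      · have h1 : T2ᶜ.Adj x B := by
          rw [SimpleGraph.compl_adj]
          exact ⟨hxB, htri x h⟩
        exact h1.reachable.trans hcB.reachable
      · have h1 : T2ᶜ.Adj x A := by
          rw [SimpleGraph.compl_adj]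
          exact ⟨hxA, h⟩
        exact h1.reachable.trans hcA.reachable
    have : Nonempty (Fin (m + 2 + 1)) := ⟨w⟩
    exact ⟨fun x y => (hreach x).trans (hreach y).symm⟩
  · refine ⟨e2.comp ((SimpleGraph.Embedding.map _ _).comp e1)⟩

theorem bounded_zero {m : ℕ} (F : SimpleGraph (Fin m)) : Bounded F 0 0 := by
  intro V _ G hcl _
  have : IsEmpty V := by
    by_contra h
    rw [not_isEmpty_iff] at h
    obtain ⟨v⟩ := h
    refine hcl {v} ?_
    rw [SimpleGraph.isNClique_iff]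
    refine ⟨?_, Finset.card_singleton v⟩
    intro x hx y hy hxy
    rw [Finset.mem_coe, mem_singleton] at hx hy
    exact absurd (hx.trans hy.symm) hxy
  exact SimpleGraph.Colorable.of_isEmpty _

theorem conj (c : ℝ) (hc : c < 1) :
    (∀ (m : ℕ) (F : SimpleGraph (Fin m)), F.IsAcyclic → ∀ k, ∃ C, Bounded F k C) ↔
    (∀ (m : ℕ) (F : SimpleGraph (Fin m)), F.IsAcyclic → ∀ k, ∃ C, DenseBounded F k c C) := by
  constructor
  · intro h m F hF k
    obtain ⟨C, hC⟩ := h m F hF k
    exact ⟨C, fun V _ G _ => hC V G⟩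
  · intro h m F hF k
    rcases Nat.eq_zero_or_pos m with hm | hm
    · subst hm
      refine ⟨0, fun V _ G _ hind => absurd ?_ hind⟩
      exact ⟨⟨⟨fun i => i.elim0, fun i => i.elim0⟩, fun {i} => i.elim0⟩⟩
    rcases Nat.eq_zero_or_pos k with hk | hk
    · subst hk
      exact ⟨0, bounded_zero F⟩
    obtain ⟨M, T, hM, hT1, hT2, hT3, ⟨e⟩⟩ := big_tree hm F hF
    obtain ⟨j, hj⟩ := exists_nat_gt (c / (1 - c))
    have hjc : c * (j + 1) < j := by
      rw [div_lt_iff₀ (by linarith)] at hj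
      linarith
    obtain ⟨C, hC⟩ := h M T hT3 (k + j)
    refine ⟨C, fun V _ G hcl hind => ?_⟩
    refine down T hM hT1 hT2 k j c hk hjc C hC V G hcl ?_
    rintro ⟨f⟩
    exact hind ⟨f.comp e⟩

end Pool.Agent.Q115.DG
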