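import Pool.Agent.Q115.DG.Up
import Pool.Agent.H367R3.GSForest

/-!
# Dense graphs contain the general case
-/

set_option autoImplicit false

namespace Pool.Agent.Q115.DG

open Finset

/-- `H`, and `j + 1` independent sets of `n` vertices each: the vertices of the first `j` sets are
joined to all vertices outside their set, the last set is not joined to `H`. -/
def blow {W : Type} (H : SimpleGraph W) (j n : ℕ) : SimpleGraph (W ⊕ (Fin (j + 1) × Fin n)) where
  Adj x y := match x, y with
    | Sum.inl u, Sum.inl v => H.Adj u v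
    | Sum.inl _, Sum.inr q => q.1 ≠ Fin.last j
    | Sum.inr p, Sum.inl _ => p.1 ≠ Fin.last j
    | Sum.inr p, Sum.inr q => p.1 ≠ q.1
  symm := ⟨by
    rintro (u | p) (v | q) h
    · exact SimpleGraph.Adj.symm h
    · exact h
    · exact h
    · exact Ne.symm h⟩
  loopless := ⟨by
    rintro (u | p) h
    · exact H.loopless.irrefl u h
    · exact h rfl⟩

variable {W : Type}

theorem blow_ll (H : SimpleGraph W) (j n : ℕ) (u v : W) :
    (blow H j n).Adj (Sum.inl u) (Sum.inl v) ↔ H.Adj u v := Iff.rfl
theorem blow_lr (H : SimpleGraph W) (j n : ℕ) (u : W) (q : Fin (j + 1) × Fin n) :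
    (blow H j n).Adj (Sum.inl u) (Sum.inr q) ↔ q.1 ≠ Fin.last j := Iff.rfl
theorem blow_rl (H : SimpleGraph W) (j n : ℕ) (u : W) (q : Fin (j + 1) × Fin n) :
    (blow H j n).Adj (Sum.inr q) (Sum.inl u) ↔ q.1 ≠ Fin.last j := Iff.rfl
theorem blow_rr (H : SimpleGraph W) (j n : ℕ) (p q : Fin (j + 1) × Fin n) :
    (blow H j n).Adj (Sum.inr p) (Sum.inr q) ↔ p.1 ≠ q.1 := Iff.rfl

theorem blow_deg [Fintype W] (H : SimpleGraph W) (j n : ℕ) (v : W ⊕ (Fin (j + 1) × Fin n)) :
    j * n ≤ ((blow H j n).neighborSet v).ncard := by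
  classical
  -- the index to avoid
  obtain ⟨a, ha⟩ : ∃ a : Fin (j + 1), ∀ (b : Fin (j + 1)) (y : Fin n), b ≠ a →
      (blow H j n).Adj v (Sum.inr (b, y)) := by
    rcases v with u | p
    · exact ⟨Fin.last j, fun b y hb => hb⟩
    · exact ⟨p.1, fun b y hb => hb.symm⟩
  have h1 : (((univ.erase a) ×ˢ (univ : Finset (Fin n))).map
      ⟨(Sum.inr : _ → W ⊕ (Fin (j + 1) × Fin n)), Sum.inr_injective⟩ : Set _) ⊆
      (blow H j n).neighborSet v := by
    intro x hx
    rw [Finset.mem_coe, mem_map] at hx
    obtain ⟨⟨b, y⟩, hb, rfl⟩ := hx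
    rw [mem_product] at hb
    exact ha b y (Finset.ne_of_mem_erase hb.1)
  have h2 := Set.ncard_le_ncard h1 (Set.toFinite _)
  rw [Set.ncard_coe_finset, card_map, card_product, card_erase_of_mem (mem_univ a), card_univ,
    card_univ, Fintype.card_fin, Fintype.card_fin, Nat.add_sub_cancel] at h2
  exact h2

theorem blow_cliqueFree (H : SimpleGraph W) (j n k : ℕ) (hk : 1 ≤ k) (hH : H.CliqueFree (k + 1)) :
    (blow H j n).CliqueFree (k + j + 1) := by
  classical
  intro s hs
  rw [SimpleGraph.isNClique_iff] at hs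
  obtain ⟨hs1, hs2⟩ := hs
  -- left part
  set L := s.filter (fun x => x.isLeft = true) with hL
  set R := s.filter (fun x => ¬ x.isLeft = true) with hR
  have hcard : L.card + R.card = k + j + 1 := by
    rw [hL, hR, Finset.card_filter_add_card_filter_not, hs2]
  -- the left part is a clique of H
  have hLk : L.card ≤ k := by
    by_contra hlt
    push Not at hlt
    obtain ⟨L', hL', hL'c⟩ := Finset.exists_subset_card_eq (show k + 1 ≤ L.card by omega)
    have hinj : Set.InjOn (fun x : W ⊕ (Fin (j + 1) × Fin n) => x.getLeft?) (L' : Set _) := by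
      intro x hx y hy hxy
      have h1 := (mem_filter.1 (hL' (Finset.mem_coe.1 hx))).2
      have h2 := (mem_filter.1 (hL' (Finset.mem_coe.1 hy))).2
      rcases x with x | x <;> rcases y with y | y <;> simp_all
    -- pull back
    let T : Finset W := L'.preimage Sum.inl (Sum.inl_injective.injOn)
    have hT : T.card = k + 1 := by
      rw [← hL'c]
      apply Finset.card_bij (fun x _ => Sum.inl x)
      · intro x hx
        exact Finset.mem_preimage.1 hx
      · intro x _ y _ h
        exact Sum.inl_injective h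
      · intro y hy
        have h1 := (mem_filter.1 (hL' hy)).2
        rcases y with y | y
        · exact ⟨y, Finset.mem_preimage.2 hy, rfl⟩
        · simp at h1
    refine hH T ?_
    rw [SimpleGraph.isNClique_iff]
    refine ⟨?_, hT⟩
    intro x hx y hy hxy
    have h1 := (mem_filter.1 (hL' (Finset.mem_preimage.1 (Finset.mem_coe.1 hx)))).1
    have h2 := (mem_filter.1 (hL' (Finset.mem_preimage.1 (Finset.mem_coe.1 hy)))).1
    exact hs1 (Finset.mem_coe.2 h1) (Finset.mem_coe.2 h2) (fun h => hxy (Sum.inl_injective h))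
  -- the right part has different indices
  let ind : W ⊕ (Fin (j + 1) × Fin n) → Fin (j + 1) := fun x => x.elim (fun _ => Fin.last j) (fun p => p.1)
  have hRinj : Set.InjOn ind (R : Set _) := by
    intro x hx y hy hxy
    by_contra hne
    have h1 := mem_filter.1 (Finset.mem_coe.1 hx)
    have h2 := mem_filter.1 (Finset.mem_coe.1 hy)
    have h3 := hs1 (Finset.mem_coe.2 h1.1) (Finset.mem_coe.2 h2.1) hne
    rcases x with x | x
    · simp at h1
    · rcases y with y | y
      · simp at h2
      · exact h3 hxy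
  have hRj1 : R.card ≤ j + 1 := by
    rw [← Finset.card_image_of_injOn hRinj]
    exact (Finset.card_le_univ _).trans (by rw [Fintype.card_fin])
  rcases L.eq_empty_or_nonempty with hLe | ⟨x, hx⟩
  · rw [hLe, card_empty] at hcard
    omega
  · have hRj : R.card ≤ j := by
      rw [← Finset.card_image_of_injOn hRinj]
      have hsub : R.image ind ⊆ univ.erase (Fin.last j) := by
        intro a ha
        rw [mem_image] at ha
        obtain ⟨y, hy, rfl⟩ := ha
        rw [mem_erase]
        refine ⟨?_, mem_univ _⟩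
        have h1 := mem_filter.1 hx
        have h2 := mem_filter.1 hy
        rcases y with y | y
        · simp at h2
        · rcases x with x | x
          · have h3 := hs1 (Finset.mem_coe.2 h1.1) (Finset.mem_coe.2 h2.1) (by simp)
            exact h3
          · simp at h1
      have := Finset.card_le_card hsub
      rwa [card_erase_of_mem (mem_univ _), card_univ, Fintype.card_fin, Nat.add_sub_cancel] at this
    omega

theorem cross {m : ℕ} {F : SimpleGraph (Fin m)} (hF : F.Connected) (A : Set (Fin m))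
    {a b : Fin m} (ha : a ∈ A) (hb : b ∉ A) : ∃ x ∈ A, ∃ y, y ∉ A ∧ F.Adj x y := by
  obtain ⟨p⟩ := hF.preconnected a b
  obtain ⟨d, _, h1, h2⟩ := p.exists_boundary_dart A ha hb
  exact ⟨d.fst, h1, d.snd, h2, d.adj⟩

theorem blow_free {m : ℕ} (F : SimpleGraph (Fin m)) (hm : 2 ≤ m) (hF : F.Connected)
    (hFc : Fᶜ.Connected) (H : SimpleGraph W) (j n : ℕ) (hH : ¬ F.IsIndContained H) :
    ¬ F.IsIndContained (blow H j n) := by
  classical
  rintro ⟨f⟩
  -- every set is crossed
  have hother : ∀ i : Fin m, ∃ i', i' ≠ i := by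
    intro i
    have : Nontrivial (Fin m) := Fin.nontrivial_iff_two_le.2 hm
    exact exists_ne i
  -- no image in the joined sets
  have h1 : ∀ i, ∀ p, f i = Sum.inr p → p.1 = Fin.last j := by
    intro i p hp
    by_contra hne
    set A : Set (Fin m) := {i' | ∃ y, f i' = Sum.inr (p.1, y)} with hA
    have hiA : i ∈ A := ⟨p.2, hp⟩
    have hnot : ∃ i', i' ∉ A := by
      by_contra hall
      push Not at hall
      obtain ⟨i', hi'⟩ := hother i
      obtain ⟨x, hx, y, hy, hxy⟩ := cross hF {i} rfl (b := i') hi'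
      obtain ⟨y1, hy1⟩ := hall x
      obtain ⟨y2, hy2⟩ := hall y
      have h2 := f.map_rel_iff'.2 hxy
      have h3 : (blow H j n).Adj (f x) (f y) := h2
      rw [hy1, hy2, blow_rr] at h3
      exact h3 rfl
    obtain ⟨i', hi'⟩ := hnot
    obtain ⟨x, hx, y, hy, hxy⟩ := cross hFc A hiA hi'
    rw [SimpleGraph.compl_adj] at hxy
    apply hxy.2
    obtain ⟨y1, hy1⟩ := hx
    have h3 : (blow H j n).Adj (f x) (f y) := by
      rcases hfy : f y with u | q
      · rw [hy1, blow_rl]
        exact hne
      · rw [hy1, blow_rr]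
        intro h4
        exact hy ⟨q.2, by rw [hfy]; exact congrArg Sum.inr (Prod.ext h4.symm rfl)⟩
    exact f.map_rel_iff'.1 h3
  -- no image in the last set
  have h2 : ∀ i, ∃ u, f i = Sum.inl u := by
    intro i
    by_contra hno
    push Not at hno
    have hi : ∃ p, f i = Sum.inr p := by
      rcases hfi : f i with u | p
      · exact absurd hfi (hno u)
      · exact ⟨p, rfl⟩
    obtain ⟨i', hi'⟩ := hother i
    set B : Set (Fin m) := {i' | ∃ p, f i' = Sum.inr p} with hB
    have hcr : ∃ x ∈ B, ∃ y, F.Adj x y := by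
      obtain ⟨x, hx, y, hy, hxy⟩ := cross hF {i} rfl (b := i') hi'
      exact ⟨x, by rw [Set.mem_singleton_iff.1 hx]; exact hi, y, hxy⟩
    obtain ⟨x, ⟨p, hp⟩, y, hxy⟩ := hcr
    have h3 : (blow H j n).Adj (f x) (f y) := f.map_rel_iff'.2 hxy
    have hp1 := h1 x p hp
    rcases hfy : f y with u | q
    · rw [hp, hfy, blow_rl] at h3
      exact h3 hp1
    · rw [hp, hfy, blow_rr] at h3
      exact h3 (hp1.trans (h1 y q hfy).symm)
  choose g hg using h2
  apply hH
  refine ⟨⟨⟨g, ?_⟩, ?_⟩⟩
  · intro a b hab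
    apply f.injective
    rw [hg a, hg b, hab]
  · intro a b
    show H.Adj (g a) (g b) ↔ F.Adj a b
    rw [← blow_ll H j n, ← hg a, ← hg b]
    exact f.map_rel_iff'

/-- **Lower bound.** -/
theorem down {m : ℕ} (F : SimpleGraph (Fin m)) (hm : 2 ≤ m) (hF : F.Connected)
    (hFc : Fᶜ.Connected) (k j : ℕ) (c : ℝ) (hk : 1 ≤ k) (hc : c * (j + 1) < j) (C : ℕ)
    (h : DenseBounded F (k + j) c C) : Bounded F k C := by
  classical
  intro W _ H hcl hind
  have hpos : 0 < (j : ℝ) - c * (j + 1) := by linarith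
  obtain ⟨n, hn⟩ := exists_nat_ge (c * Fintype.card W / (j - c * (j + 1)))
  have hcol := h (W ⊕ (Fin (j + 1) × Fin n)) (blow H j n) (by
    intro v
    have h1 := blow_deg H j n v
    have h2 : ((j * n : ℕ) : ℝ) ≤ (((blow H j n).neighborSet v).ncard : ℝ) := by exact_mod_cast h1
    refine le_trans ?_ h2
    rw [Fintype.card_sum, Fintype.card_prod, Fintype.card_fin, Fintype.card_fin]
    push_cast
    rw [div_le_iff₀ hpos] at hn
    linarith) (blow_cliqueFree H j n k hk hcl) (blow_free F hm hF hFc H j n hind)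
  let φ : H →g blow H j n := ⟨Sum.inl, fun h => h⟩
  exact hcol.of_hom φ

end Pool.Agent.Q115.DG
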