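import Pool.Agent.W259.GS.Shatter

/-!
# Small hitting sets for set systems of bounded VC dimension (the epsilon net theorem)
-/

set_option autoImplicit false

namespace Pool.Agent.Q115.DG

open Finset

theorem card_prescribed {m : ℕ} (J : Finset (Fin m)) (b : Fin m → Bool) :
    (univ.filter (fun σ : Fin m → Bool => ∀ j ∈ J, σ j = b j)).card ≤ 2 ^ (m - J.card) := by
  classical
  have h : (univ.filter (fun σ : Fin m → Bool => ∀ j ∈ J, σ j = b j)).card ≤
      (univ : Finset ({j // j ∉ J} → Bool)).card := by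
    apply Finset.card_le_card_of_injOn (fun σ j => σ j.1)
    · intro σ _
      exact Finset.mem_coe.2 (mem_univ _)
    · intro σ hσ τ hτ h
      have h1 := (mem_filter.1 (Finset.mem_coe.1 hσ)).2
      have h2 := (mem_filter.1 (Finset.mem_coe.1 hτ)).2
      funext j
      by_cases hj : j ∈ J
      · rw [h1 j hj, h2 j hj]
      · exact congrFun h ⟨j, hj⟩
  rw [Finset.card_univ, Fintype.card_fun, Fintype.card_bool] at h
  have h3 : Fintype.card {j // j ∉ J} = m - J.card := by
    rw [Fintype.card_subtype_compl, Fintype.card_fin, Fintype.card_coe]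
  rwa [h3] at h

/-- the swap of the pairs `j` with `σ j` -/
def sw {V : Type} {m : ℕ} (σ : Fin m → Bool) (z : Fin m → V × V) : Fin m → V × V :=
  fun j => if σ j then (z j).swap else z j

theorem sw_sw {V : Type} {m : ℕ} (σ : Fin m → Bool) (z : Fin m → V × V) : sw σ (sw σ z) = z := by
  funext j
  unfold sw
  by_cases h : σ j <;> simp [h]

theorem sw_inv {V : Type} {m : ℕ} (σ : Fin m → Bool) : Function.Bijective (sw (V := V) σ) :=
  Function.Involutive.bijective (sw_sw σ)

/-- the event of the double sample -/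
def Bad {V : Type} [DecidableEq V] {m : ℕ} (𝒮 : Finset (Finset V)) (c : ℝ) (z : Fin m → V × V) :
    Prop :=
  ∃ S ∈ 𝒮, (∀ j, (z j).1 ∉ S) ∧ c / 2 * m ≤ ((univ.filter fun j => (z j).2 ∈ S).card : ℝ)

theorem count_one {V : Type} [Fintype V] [DecidableEq V] {m : ℕ} (S : Finset V) (j : Fin m) :
    (univ.filter (fun y : Fin m → V => y j ∈ S)).card = S.card * Fintype.card V ^ (m - 1) := by
  have h : univ.filter (fun y : Fin m → V => y j ∈ S) =
      Fintype.piFinset (fun i => if i = j then S else univ) := by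
    ext y
    rw [mem_filter, Fintype.mem_piFinset]
    constructor
    · rintro ⟨-, h⟩ i
      by_cases hi : i = j
      · subst hi
        simpa using h
      · simp [hi]
    · intro h
      refine ⟨mem_univ _, ?_⟩
      have := h j
      simpa using this
  rw [h, Fintype.card_piFinset, ← Finset.mul_prod_erase univ _ (mem_univ j)]
  have h2 : ∏ x ∈ univ.erase j, (if x = j then S else univ : Finset V).card =
      ∏ _x ∈ univ.erase j, Fintype.card V := by
    apply Finset.prod_congr rfl
    intro x hx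
    rw [if_neg (Finset.ne_of_mem_erase hx), Finset.card_univ]
  rw [h2, Finset.prod_const, Finset.card_erase_of_mem (mem_univ j), Finset.card_univ,
    Fintype.card_fin, if_pos rfl]

/-- reverse Markov inequality -/
theorem count_many {V : Type} [Fintype V] [DecidableEq V] [Nonempty V] {m : ℕ} (hm : 1 ≤ m)
    (S : Finset V) (c : ℝ) (hc : 0 < c) (hS : c * Fintype.card V ≤ S.card) :
    c / 2 * (Fintype.card V : ℝ) ^ m ≤ ((univ.filter (fun y : Fin m → V =>
      c / 2 * m ≤ ((univ.filter fun j => y j ∈ S).card : ℝ))).card : ℝ) := by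
  classical
  have hn : (0 : ℝ) < Fintype.card V := by exact_mod_cast Fintype.card_pos
  have hmr : (0 : ℝ) < m := by exact_mod_cast hm
  set A := univ.filter (fun y : Fin m → V =>
      c / 2 * m ≤ ((univ.filter fun j => y j ∈ S).card : ℝ)) with hA
  have h1 : ∑ y : Fin m → V, ((univ.filter fun j => y j ∈ S).card : ℝ) =
      m * (S.card * (Fintype.card V : ℝ) ^ (m - 1)) := by
    have h2 : ∀ y : Fin m → V, ((univ.filter fun j => y j ∈ S).card : ℝ) =
        ∑ j : Fin m, if y j ∈ S then (1 : ℝ) else 0 := by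
      intro y
      rw [Finset.card_filter]
      push_cast
      rfl
    calc ∑ y : Fin m → V, ((univ.filter fun j => y j ∈ S).card : ℝ)
        = ∑ y : Fin m → V, ∑ j : Fin m, (if y j ∈ S then (1 : ℝ) else 0) :=
          Finset.sum_congr rfl (fun y _ => h2 y)
      _ = ∑ j : Fin m, ∑ y : Fin m → V, (if y j ∈ S then (1 : ℝ) else 0) := Finset.sum_comm
      _ = ∑ j : Fin m, (S.card * (Fintype.card V : ℝ) ^ (m - 1)) := by
          apply Finset.sum_congr rfl
          intro j _
          have h3 := count_one (V := V) S j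
          rw [Finset.card_filter] at h3
          exact_mod_cast h3
      _ = _ := by rw [Finset.sum_const, Finset.card_univ, Fintype.card_fin, nsmul_eq_mul]
  have h4 : ∑ y : Fin m → V, ((univ.filter fun j => y j ∈ S).card : ℝ) ≤
      ∑ y : Fin m → V, (c / 2 * m + if y ∈ A then (m : ℝ) else 0) := by
    apply Finset.sum_le_sum
    intro y _
    by_cases hy : y ∈ A
    · rw [if_pos hy]
      have h5 : ((univ.filter fun j => y j ∈ S).card : ℝ) ≤ m := by
        have := Finset.card_le_univ (univ.filter fun j => y j ∈ S)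
        rw [Fintype.card_fin] at this
        exact_mod_cast this
      have : 0 ≤ c / 2 * m := by positivity
      linarith
    · rw [if_neg hy, add_zero]
      rw [hA, mem_filter] at hy
      push Not at hy
      exact (hy (mem_univ _)).le
  rw [Finset.sum_add_distrib, Finset.sum_const, Finset.card_univ, Fintype.card_fun,
    Fintype.card_fin, nsmul_eq_mul, ← Finset.sum_filter, Finset.sum_const, nsmul_eq_mul, h1] at h4
  have h6 : (univ.filter fun y => y ∈ A) = A := by
    ext y
    simp
  rw [h6] at h4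
  push_cast at h4
  have h7 : (Fintype.card V : ℝ) ^ m = Fintype.card V * (Fintype.card V : ℝ) ^ (m - 1) := by
    rw [← pow_succ', Nat.sub_add_cancel hm]
  have h8 : (0 : ℝ) < (Fintype.card V : ℝ) ^ (m - 1) := by positivity
  have h9 : c * (Fintype.card V : ℝ) ^ m ≤ S.card * (Fintype.card V : ℝ) ^ (m - 1) := by
    rw [h7, ← mul_assoc]
    exact mul_le_mul_of_nonneg_right hS h8.le
  have h10 : (m : ℝ) * (c * (Fintype.card V : ℝ) ^ m) ≤
      m * (c / 2 * (Fintype.card V : ℝ) ^ m + A.card) := by
    have := mul_le_mul_of_nonneg_left h9 hmr.le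
    linarith
  have h11 := le_of_mul_le_mul_left h10 hmr
  linarith

/-- few swaps are bad -/
theorem few_swaps {V : Type} [Fintype V] [DecidableEq V] {m : ℕ} (N : ℕ) (𝒮 : Finset (Finset V))
    (h𝒮 : ∀ X : Finset V, X.card = N → ¬ 𝒮.Shatters X) (c : ℝ) (z : Fin m → V × V)
    [DecidablePred (Bad (m := m) 𝒮 c)] :
    ((univ.filter (fun σ : Fin m → Bool => Bad 𝒮 c (sw σ z))).card : ℝ) ≤
      N * (2 * m + 1) ^ N * (2 ^ m * ((2 : ℝ) ^ (-(c / 2))) ^ m) := by
  classical
  set Z : Finset V := univ.image (fun j => (z j).1) ∪ univ.image (fun j => (z j).2) with hZ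
  have hZc : Z.card ≤ 2 * m := by
    have h1 := Finset.card_union_le (univ.image (fun j => (z j).1)) (univ.image (fun j => (z j).2))
    have h2 := Finset.card_image_le (s := (univ : Finset (Fin m))) (f := fun j => (z j).1)
    have h3 := Finset.card_image_le (s := (univ : Finset (Fin m))) (f := fun j => (z j).2)
    rw [Finset.card_univ, Fintype.card_fin] at h2 h3
    rw [hZ]
    omega
  have hz1 : ∀ j, (z j).1 ∈ Z := fun j => by
    rw [hZ, mem_union]; left; exact mem_image_of_mem _ (mem_univ _)
  have hz2 : ∀ j, (z j).2 ∈ Z := fun j => by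
    rw [hZ, mem_union]; right; exact mem_image_of_mem (fun j => (z j).2) (mem_univ _)
  set 𝒯 : Finset (Finset V) := 𝒮.image (fun S => S ∩ Z) with h𝒯
  have h𝒯c : 𝒯.card ≤ N * (Z.card + 1) ^ N := by
    by_contra hlt
    push Not at hlt
    obtain ⟨X, hXZ, hXc, hX⟩ := Pool.Agent.W259.GS.sauer Z 𝒯 (by
      intro A hA
      rw [h𝒯, mem_image] at hA
      obtain ⟨S, _, rfl⟩ := hA
      exact inter_subset_right) N hlt
    apply h𝒮 X hXc
    intro A hA
    obtain ⟨T, hT, hTA⟩ := hX hA
    rw [h𝒯, mem_image] at hT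
    obtain ⟨S, hS, rfl⟩ := hT
    refine ⟨S, hS, ?_⟩
    rw [← hTA, ← inter_assoc]
    ext x
    simp only [mem_inter]
    exact ⟨fun h => ⟨h, hXZ h.1⟩, fun h => h.1⟩
  set good : Finset V → (Fin m → Bool) → Prop := fun T σ =>
    (∀ j, (sw σ z j).1 ∉ T) ∧ c / 2 * m ≤ ((univ.filter fun j => (sw σ z j).2 ∈ T).card : ℝ)
    with hgood
  have hsub : univ.filter (fun σ : Fin m → Bool => Bad 𝒮 c (sw σ z)) ⊆
      𝒯.biUnion (fun T => univ.filter (good T)) := by
    intro σ hσ
    obtain ⟨S, hS, h1, h2⟩ := (mem_filter.1 hσ).2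
    rw [mem_biUnion]
    refine ⟨S ∩ Z, mem_image_of_mem _ hS, mem_filter.2 ⟨mem_univ _, ?_, ?_⟩⟩
    · intro j hj
      exact h1 j (mem_inter.1 hj).1
    · have h3 : (univ.filter fun j => (sw σ z j).2 ∈ S ∩ Z) = univ.filter fun j => (sw σ z j).2 ∈ S := by
        apply Finset.filter_congr
        intro j _
        rw [mem_inter]
        refine ⟨fun h => h.1, fun h => ⟨h, ?_⟩⟩
        unfold sw
        by_cases hs : σ j
        · simp only [hs, if_true, Prod.snd_swap]
          exact hz1 j
        · simp only [hs]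
          exact hz2 j
      rw [h3]
      exact h2
  have hone : ∀ T ∈ 𝒯, ((univ.filter (good T)).card : ℝ) ≤ 2 ^ m * ((2 : ℝ) ^ (-(c / 2))) ^ m := by
    intro T _
    rcases (univ.filter (good T)).eq_empty_or_nonempty with he | ⟨σ0, hσ0⟩
    · rw [he, card_empty, Nat.cast_zero]
      positivity
    · set J : Finset (Fin m) := univ.filter (fun j => (z j).1 ∈ T ∨ (z j).2 ∈ T) with hJ
      have hJc : c / 2 * m ≤ (J.card : ℝ) := by
        refine (mem_filter.1 hσ0).2.2.trans ?_
        have : (univ.filter fun j => (sw σ0 z j).2 ∈ T) ⊆ J := by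
          intro j hj
          rw [mem_filter] at hj
          rw [hJ, mem_filter]
          refine ⟨mem_univ _, ?_⟩
          have h1 := hj.2
          unfold sw at h1
          by_cases hs : σ0 j
          · simp only [hs, if_true, Prod.snd_swap] at h1
            exact Or.inl h1
          · simp only [hs] at h1
            exact Or.inr h1
        exact_mod_cast Finset.card_le_card this
      have hsub2 : univ.filter (good T) ⊆ univ.filter (fun σ : Fin m → Bool =>
          ∀ j ∈ J, σ j = decide ((z j).1 ∈ T)) := by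
        intro σ hσ
        rw [mem_filter]
        refine ⟨mem_univ _, fun j hj => ?_⟩
        have h1 := (mem_filter.1 hσ).2.1 j
        have h2 := (mem_filter.1 hj).2
        unfold sw at h1
        by_cases hs : σ j
        · simp only [hs, if_true, Prod.fst_swap] at h1
          rcases h2 with h2 | h2
          · rw [hs]
            exact (decide_eq_true h2).symm
          · exact absurd h2 h1
        · simp only [hs] at h1
          have h3 : (z j).1 ∉ T := h1
          rw [Bool.not_eq_true] at hs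
          rw [hs]
          exact (decide_eq_false h3).symm
      have hJm : J.card ≤ m := by
        have := Finset.card_le_univ J
        rwa [Fintype.card_fin] at this
      have h5 : ((univ.filter (good T)).card : ℝ) ≤ (2 : ℝ) ^ (m - J.card) := by
        exact_mod_cast (Finset.card_le_card hsub2).trans (card_prescribed J _)
      refine h5.trans ?_
      rw [← Real.rpow_natCast, Nat.cast_sub hJm, Real.rpow_sub (by norm_num), Real.rpow_natCast,
        div_eq_mul_inv]
      apply mul_le_mul_of_nonneg_left _ (by positivity)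
      rw [← Real.rpow_neg (by norm_num), ← Real.rpow_natCast ((2 : ℝ) ^ (-(c / 2))) m,
        ← Real.rpow_mul (by norm_num)]
      apply Real.rpow_le_rpow_of_exponent_le (by norm_num)
      linarith
  have h6 : ((univ.filter (fun σ : Fin m → Bool => Bad 𝒮 c (sw σ z))).card : ℝ) ≤
      ∑ T ∈ 𝒯, ((univ.filter (good T)).card : ℝ) := by
    exact_mod_cast (Finset.card_le_card hsub).trans Finset.card_biUnion_le
  refine h6.trans ((Finset.sum_le_card_nsmul _ _ _ hone).trans ?_)
  rw [nsmul_eq_mul]
  apply mul_le_mul_of_nonneg_right _ (by positivity)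
  have h7 : N * (Z.card + 1) ^ N ≤ N * (2 * m + 1) ^ N :=
    Nat.mul_le_mul_left _ (Nat.pow_le_pow_left (by omega) _)
  exact_mod_cast h𝒯c.trans h7

/-- **Epsilon net theorem.** -/
theorem eps_net (N : ℕ) (c : ℝ) (hc : 0 < c) : ∃ m : ℕ, ∀ (V : Type) [Fintype V] [DecidableEq V]
    [Nonempty V] (𝒮 : Finset (Finset V)), (∀ X : Finset V, X.card = N → ¬ 𝒮.Shatters X) →
    (∀ S ∈ 𝒮, c * Fintype.card V ≤ S.card) →
    ∃ X : Finset V, X.card ≤ m ∧ ∀ S ∈ 𝒮, ∃ x ∈ X, x ∈ S := by
  classical
  obtain ⟨m, hm⟩ := Pool.Agent.W259.GS.poly_geom ((N : ℝ) * 2 ^ N * (2 / c) + 1) N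
    ((2 : ℝ) ^ (-(c / 2))) (by positivity) (Real.rpow_lt_one_of_one_lt_of_neg (by norm_num)
      (by linarith))
  have hm1 : 1 ≤ m := by
    by_contra h0
    have h0' : m = 0 := by omega
    rw [h0'] at hm
    have : (0 : ℝ) ≤ (N : ℝ) * 2 ^ N * (2 / c) := by positivity
    norm_num at hm
    linarith
  refine ⟨m, ?_⟩
  intro V _ _ _ 𝒮 h𝒮 hbig
  by_contra hcon
  push Not at hcon
  set n : ℝ := (Fintype.card V : ℝ) with hn
  have hn0 : 0 < n := by
    rw [hn]; exact_mod_cast Fintype.card_pos
  set ρ : ℝ := (2 : ℝ) ^ (-(c / 2)) with hρ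
  set B : Finset (Fin m → V × V) := univ.filter (fun z => Bad 𝒮 c z) with hB
  -- lower bound
  have hlow : c / 2 * (n ^ m * n ^ m) ≤ (B.card : ℝ) := by
    have hch : ∀ x : Fin m → V, ∃ S ∈ 𝒮, ∀ j, x j ∉ S := by
      intro x
      obtain ⟨S, hS, h⟩ := hcon (univ.image x) (by
        refine Finset.card_image_le.trans ?_
        rw [Finset.card_univ, Fintype.card_fin])
      exact ⟨S, hS, fun j => h _ (mem_image_of_mem _ (mem_univ j))⟩
    choose F hF hF2 using hch
    -- the injection
    have h1 : (∑ x : Fin m → V, (univ.filter (fun y : Fin m → V =>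
        c / 2 * m ≤ ((univ.filter fun j => y j ∈ F x).card : ℝ))).card) ≤ B.card := by
      rw [← Finset.card_sigma]
      apply Finset.card_le_card_of_injOn (fun p => fun j => (p.1 j, p.2 j))
      · intro p hp
        have hp2 := (Finset.mem_sigma.1 (Finset.mem_coe.1 hp)).2
        rw [mem_filter] at hp2
        rw [Finset.mem_coe, hB, mem_filter]
        exact ⟨mem_univ _, F p.1, hF p.1, hF2 p.1, hp2.2⟩
      · rintro ⟨x, y⟩ _ ⟨x', y'⟩ _ h
        have h2 : ∀ j, (x j, y j) = (x' j, y' j) := fun j => congrFun h j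
        have h3 : x = x' := funext fun j => congrArg Prod.fst (h2 j)
        have h4 : y = y' := funext fun j => congrArg Prod.snd (h2 j)
        subst h3
        subst h4
        rfl
    have h2 : ∑ _x : Fin m → V, (c / 2 * n ^ m) ≤ (B.card : ℝ) := by
      refine le_trans (Finset.sum_le_sum fun x _ => count_many hm1 (F x) c hc (hbig _ (hF x))) ?_
      exact_mod_cast h1
    rw [Finset.sum_const, Finset.card_univ, Fintype.card_fun, Fintype.card_fin, nsmul_eq_mul] at h2
    push_cast at h2
    rw [← hn] at h2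
    linarith
  -- upper bound
  have hup : (2 : ℝ) ^ m * B.card ≤ (n ^ m * n ^ m) * (N * (2 * m + 1) ^ N * (2 ^ m * ρ ^ m)) := by
    have h1 : ∀ σ : Fin m → Bool, (univ.filter (fun z : Fin m → V × V => Bad 𝒮 c (sw σ z))).card =
        B.card := by
      intro σ
      apply Finset.card_bij (fun z _ => sw σ z)
      · intro z hz
        rw [hB, mem_filter]
        exact ⟨mem_univ _, (mem_filter.1 hz).2⟩
      · intro z _ z' _ h
        exact (sw_inv σ).1 h
      · intro z hz
        refine ⟨sw σ z, ?_, sw_sw σ z⟩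
        rw [mem_filter, sw_sw]
        exact ⟨mem_univ _, (mem_filter.1 hz).2⟩
    have h2 : ∑ σ : Fin m → Bool, (univ.filter (fun z : Fin m → V × V =>
        Bad 𝒮 c (sw σ z))).card = 2 ^ m * B.card := by
      rw [Finset.sum_congr rfl (fun σ _ => h1 σ), Finset.sum_const, Finset.card_univ,
        Fintype.card_fun, Fintype.card_bool, Fintype.card_fin, smul_eq_mul]
    have h3 : ∑ σ : Fin m → Bool, (univ.filter (fun z : Fin m → V × V =>
        Bad 𝒮 c (sw σ z))).card = ∑ z : Fin m → V × V, (univ.filter (fun σ : Fin m → Bool =>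
        Bad 𝒮 c (sw σ z))).card := by
      simp only [Finset.card_filter]
      exact Finset.sum_comm
    have h4 : ((2 ^ m * B.card : ℕ) : ℝ) = ∑ z : Fin m → V × V,
        ((univ.filter (fun σ : Fin m → Bool => Bad 𝒮 c (sw σ z))).card : ℝ) := by
      rw [← h2, h3]
      push_cast
      rfl
    push_cast at h4
    rw [h4]
    refine (Finset.sum_le_sum fun z _ => few_swaps N 𝒮 h𝒮 c z).trans ?_
    rw [Finset.sum_const, Finset.card_univ, Fintype.card_fun, Fintype.card_prod, Fintype.card_fin,
      nsmul_eq_mul]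
    push_cast
    rw [← hn, mul_pow]
  -- combine
  have hpos : 0 < n ^ m * n ^ m := by positivity
  have h2m : (0 : ℝ) < 2 ^ m := by positivity
  have h5 : 2 ^ m * (c / 2) * (n ^ m * n ^ m) ≤
      (2 ^ m * (N * (2 * m + 1) ^ N * ρ ^ m)) * (n ^ m * n ^ m) := by
    have h6 := mul_le_mul_of_nonneg_left hlow h2m.le
    calc 2 ^ m * (c / 2) * (n ^ m * n ^ m) = 2 ^ m * (c / 2 * (n ^ m * n ^ m)) := by ring
      _ ≤ 2 ^ m * B.card := h6
      _ ≤ _ := hup
      _ = _ := by ring
  have h6 := le_of_mul_le_mul_right h5 hpos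
  have h7 : c / 2 ≤ N * (2 * m + 1) ^ N * ρ ^ m := le_of_mul_le_mul_left h6 h2m
  have h8 : ((2 : ℝ) * m + 1) ^ N ≤ 2 ^ N * ((m : ℝ) + 1) ^ N := by
    rw [← mul_pow]
    apply pow_le_pow_left₀ (by positivity)
    linarith
  have hρ0 : 0 < ρ := by positivity
  have h9 : c / 2 ≤ N * (2 ^ N * ((m : ℝ) + 1) ^ N) * ρ ^ m := by
    refine h7.trans ?_
    apply mul_le_mul_of_nonneg_right _ (by positivity)
    exact mul_le_mul_of_nonneg_left h8 (by positivity)
  have h10 : (1 : ℝ) ≤ ((N : ℝ) * 2 ^ N * (2 / c)) * ((m : ℝ) + 1) ^ N * ρ ^ m := by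
    have h11 := mul_le_mul_of_nonneg_left h9 (show 0 ≤ 2 / c by positivity)
    have h12 : 2 / c * (c / 2) = 1 := by field_simp
    rw [h12] at h11
    calc (1 : ℝ) ≤ _ := h11
      _ = _ := by ring
  have h13 : 0 ≤ ((m : ℝ) + 1) ^ N * ρ ^ m := by positivity
  nlinarith [hm, h10, h13]

end Pool.Agent.Q115.DG
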