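import Pool.Agent.Q115.DG.Net

/-!
# Colouring dense graphs without an induced bipartite graph
-/

set_option autoImplicit false

namespace Pool.Agent.Q115.DG

open Finset

/-- Every finite graph without induced `F` and without a clique of size `k + 1` is
`C`-colourable. -/
def Bounded {m : ℕ} (F : SimpleGraph (Fin m)) (k C : ℕ) : Prop :=
  ∀ (V : Type) [Fintype V] (G : SimpleGraph V), G.CliqueFree (k + 1) → ¬ F.IsIndContained G →
    G.Colorable C

/-- The same for the graphs `G` in which every vertex has at least `c |V(G)|` neighbours. -/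
def DenseBounded {m : ℕ} (F : SimpleGraph (Fin m)) (k : ℕ) (c : ℝ) (C : ℕ) : Prop :=
  ∀ (V : Type) [Fintype V] (G : SimpleGraph V),
    (∀ v, c * (Fintype.card V : ℝ) ≤ ((G.neighborSet v).ncard : ℝ)) →
    G.CliqueFree (k + 1) → ¬ F.IsIndContained G → G.Colorable C

theorem cover {m : ℕ} (F : SimpleGraph (Fin m)) (hF : F.IsBipartite) (k : ℕ) (c : ℝ) (hc : 0 < c) :
    ∃ M : ℕ, ∀ (V : Type) [Fintype V] [Nonempty V] (G : SimpleGraph V),
    (∀ v, c * (Fintype.card V : ℝ) ≤ ((G.neighborSet v).ncard : ℝ)) →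
    G.CliqueFree k → ¬ F.IsIndContained G →
    ∃ X : Finset V, X.card ≤ M ∧ ∀ v, ∃ x ∈ X, G.Adj v x := by
  classical
  obtain ⟨N, hN⟩ := Pool.Agent.W259.GS.noShatter F hF k
  obtain ⟨M, hM⟩ := eps_net N c hc
  refine ⟨M, ?_⟩
  intro V _ _ G hdeg hcl hind
  obtain ⟨X, hX, hX2⟩ := hM V (univ.image (fun v => univ.filter (fun x => G.Adj v x))) (by
      intro X hXc hsh
      have h1 : Pool.Agent.W259.GS.Sh G X Set.univ := by
        intro A hA
        obtain ⟨S, hS, hSA⟩ := hsh hA
        rw [mem_image] at hS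
        obtain ⟨v, -, rfl⟩ := hS
        refine ⟨v, Set.mem_univ _, fun x hx => ?_⟩
        rw [← hSA, mem_inter, mem_filter]
        exact ⟨fun h => ⟨hx, mem_univ _, h⟩, fun h => h.2.2⟩
      have := hN V G X hcl ⟨fun f => hind ⟨f⟩⟩ h1
      omega) (by
      intro S hS
      rw [mem_image] at hS
      obtain ⟨v, -, rfl⟩ := hS
      have h1 := hdeg v
      have h2 : (G.neighborSet v).ncard = (univ.filter (fun x => G.Adj v x)).card := by
        rw [← Set.ncard_coe_finset]
        congr 1
        ext x
        simp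
      rw [h2] at h1
      exact h1)
  refine ⟨X, hX, fun v => ?_⟩
  obtain ⟨x, hx, hvx⟩ := hX2 _ (mem_image_of_mem _ (mem_univ v))
  exact ⟨x, hx, (mem_filter.1 hvx).2⟩

/-- colouring from a dominating set -/
theorem colorable_of_cover {V : Type} (G : SimpleGraph V) (X : Finset V) {M C : ℕ}
    (hX : X.card ≤ M) (hcov : ∀ v, ∃ x ∈ X, G.Adj v x)
    (hcol : ∀ x, (G.induce (G.neighborSet x)).Colorable C) : G.Colorable (M * C) := by
  classical
  choose f hfX hf using hcov
  have col : ∀ x, (G.induce (G.neighborSet x)).Coloring (Fin C) := fun x => Classical.choice (hcol x)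
  have h1 : G.Colorable (Fintype.card (X × Fin C)) := by
    apply SimpleGraph.Coloring.colorable
    refine SimpleGraph.Coloring.mk (fun v => ((⟨f v, hfX v⟩ : X), col (f v) ⟨v, (hf v).symm⟩)) ?_
    intro u v huv h
    have h1 : f u = f v := congrArg Subtype.val (congrArg Prod.fst h)
    have h2 : col (f u) ⟨u, (hf u).symm⟩ = col (f v) ⟨v, (hf v).symm⟩ := congrArg Prod.snd h
    have h3 : ∀ (x : V) (hx : f v = x) , col (f v) ⟨v, (hf v).symm⟩ =
        col x ⟨v, hx ▸ (hf v).symm⟩ := by
      intro x hx
      subst hx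
      rfl
    rw [h3 (f u) h1.symm] at h2
    have h4 : (G.induce (G.neighborSet (f u))).Adj ⟨u, (hf u).symm⟩
        ⟨v, h1.symm ▸ (hf v).symm⟩ := huv
    exact (col (f u)).valid h4 h2
  rw [Fintype.card_prod, Fintype.card_coe, Fintype.card_fin] at h1
  exact h1.mono (Nat.mul_le_mul_right _ hX)

theorem ncard_induce {V : Type} [Fintype V] (G : SimpleGraph V) (S : Set V) (y : S) :
    ((G.induce S).neighborSet y).ncard = (G.neighborSet y ∩ S).ncard := by
  rw [← Set.ncard_image_of_injective _ Subtype.val_injective]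
  congr 1
  ext z
  simp only [Set.mem_image, Set.mem_inter_iff, SimpleGraph.mem_neighborSet,
    SimpleGraph.comap_adj, Function.Embedding.subtype_apply]
  constructor
  · rintro ⟨w, hw, rfl⟩
    exact ⟨hw, w.2⟩
  · rintro ⟨h1, h2⟩
    exact ⟨⟨z, h2⟩, h1, rfl⟩

theorem cliqueFree_nbr {V : Type} (G : SimpleGraph V) {n : ℕ} (h : G.CliqueFree (n + 1)) (x : V) :
    (G.induce (G.neighborSet x)).CliqueFree n := by
  classical
  intro s hs
  have h1 : G.IsNClique n (s.map (Function.Embedding.subtype _)) := by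
    rw [SimpleGraph.isNClique_iff] at hs ⊢
    refine ⟨?_, by rw [card_map]; exact hs.2⟩
    intro a ha b hb hab
    rw [Finset.mem_coe, mem_map] at ha hb
    obtain ⟨a', ha', rfl⟩ := ha
    obtain ⟨b', hb', rfl⟩ := hb
    exact hs.1 (Finset.mem_coe.2 ha') (Finset.mem_coe.2 hb') (fun h => hab (by rw [h]))
  refine h _ (h1.insert (a := x) ?_)
  intro b hb
  rw [mem_map] at hb
  obtain ⟨b', _, rfl⟩ := hb
  exact b'.2

/-- **Upper bound.** -/
theorem up {m : ℕ} (F : SimpleGraph (Fin m)) (hF : F.IsBipartite) (k C : ℕ) (h : Bounded F k C) :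
    ∀ (j : ℕ) (c : ℝ), (j : ℝ) - 1 < c * j → ∃ C', DenseBounded F (k + j) c C' := by
  intro j
  induction j with
  | zero => exact fun c _ => ⟨C, fun V _ G _ => h V G⟩
  | succ j ih =>
    intro c hc
    push_cast at hc
    have hj : (0 : ℝ) ≤ j := Nat.cast_nonneg j
    have hc0 : 0 < c := by
      by_contra h0
      push Not at h0
      have : c * (j + 1) ≤ 0 := mul_nonpos_of_nonpos_of_nonneg h0 (by linarith)
      linarith
    obtain ⟨C1, hC1⟩ := ih (2 - 1 / c) (by
      have h1 : j / c < j + 1 := by
        rw [div_lt_iff₀ hc0]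
        linarith
      have h2 : (2 - 1 / c) * j = 2 * j - j / c := by ring
      rw [h2]
      linarith)
    obtain ⟨M, hM⟩ := cover F hF (k + (j + 1) + 1) c hc0
    refine ⟨M * C1, ?_⟩
    intro V _ G hdeg hcl hind
    rcases isEmpty_or_nonempty V with hV | hV
    · exact SimpleGraph.Colorable.of_isEmpty _
    obtain ⟨X, hX, hcov⟩ := hM V G hdeg hcl hind
    refine colorable_of_cover G X hX hcov fun x => ?_
    have : Fintype (G.neighborSet x) := Fintype.ofFinite _
    refine hC1 _ _ ?_ (cliqueFree_nbr G hcl x) ?_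
    · rintro ⟨y, hy⟩
      rw [ncard_induce]
      have h1 := Set.ncard_union_add_ncard_inter (G.neighborSet y) (G.neighborSet x)
      have h2 : (G.neighborSet y ∪ G.neighborSet x).ncard ≤ Fintype.card V := by
        rw [← Nat.card_eq_fintype_card, ← Set.ncard_univ]
        exact Set.ncard_le_ncard (Set.subset_univ _)
      have h3 := hdeg x
      have h4 := hdeg y
      have h5 : ((G.neighborSet y).ncard : ℝ) + (G.neighborSet x).ncard ≤
          Fintype.card V + ((G.neighborSet y ∩ G.neighborSet x).ncard : ℝ) := by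
        have : (G.neighborSet y).ncard + (G.neighborSet x).ncard ≤
          Fintype.card V + (G.neighborSet y ∩ G.neighborSet x).ncard := by omega
        exact_mod_cast this
      have h6 : (Fintype.card (G.neighborSet x) : ℝ) = ((G.neighborSet x).ncard : ℝ) := by
        rw [← Nat.card_eq_fintype_card, Nat.card_coe_set_eq]
      have hn : (0 : ℝ) < Fintype.card V := by exact_mod_cast Fintype.card_pos
      have h7 : ((G.neighborSet x).ncard : ℝ) ≤ Fintype.card V := by
        have : (G.neighborSet x).ncard ≤ (G.neighborSet y ∪ G.neighborSet x).ncard :=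
          Set.ncard_le_ncard Set.subset_union_right
        exact_mod_cast this.trans h2
      have h8 : c ≤ 1 := by
        by_contra h0
        push Not at h0
        nlinarith
      rw [h6]
      set a : ℝ := ((G.neighborSet x).ncard : ℝ) with ha
      set n : ℝ := (Fintype.card V : ℝ) with hn'
      have h9 : 0 ≤ 1 / c - 1 := by
        have : 1 ≤ 1 / c := by
          rw [le_div_iff₀ hc0]
          linarith
        linarith
      have h10 : (1 / c - 1) * (c * n) ≤ (1 / c - 1) * a := mul_le_mul_of_nonneg_left h3 h9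
      have h11 : (1 / c - 1) * (c * n) = n - c * n := by
        field_simp
      have h12 : (2 - 1 / c) * a = a - (1 / c - 1) * a := by ring
      rw [h12]
      linarith
    · rintro ⟨f⟩
      exact hind ⟨(SimpleGraph.Embedding.induce _).comp f⟩

end Pool.Agent.Q115.DG
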